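import Mathlib

/-!
# T5 (for helper32): difference sets of finite sets in the quadrant with a small boundary
-/

set_option autoImplicit false

namespace Pool.Agent.Zk55.Tv5

open Finset

theorem card_enter (G : Finset (ℕ × ℕ)) (f : ℕ × ℕ → ℕ × ℕ) (hf : Function.Injective f)
    (P : ℕ × ℕ → Prop) [DecidablePred P] (hP : ∀ n ∈ G, f n ∈ G → P (f n)) :
    (G.filter fun a => ¬ P a).card ≤ (G.filter fun n => f n ∉ G).card := by
  have h1 := Finset.card_filter_add_card_filter_not (s := G) P
  have h2 := Finset.card_filter_add_card_filter_not (s := G) (fun n => f n ∈ G)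
  have h3 : (G.filter fun n => f n ∈ G).card ≤ (G.filter P).card := by
    apply card_le_card_of_injOn f
    · intro n hn
      have hn' := mem_filter.1 hn
      exact mem_filter.2 ⟨hn'.2, hP n hn'.1 hn'.2⟩
    · exact hf.injOn
  omega

theorem temper_diff (G : Finset (ℕ × ℕ)) (D : ℕ) : ∃ Gd : Finset (ℤ × ℤ),
    (Gd.card : ℝ) ≤ G.card + ((D : ℝ) + 1) ^ 2 * (((G.filter fun n => (n.1 + 1, n.2) ∉ G).card : ℝ) +
      ((G.filter fun n => (n.1, n.2 + 1) ∉ G).card : ℝ)) ∧
    ∀ a ∈ G, ∀ b : ℕ × ℕ, b.1 ≤ D → b.2 ≤ D → ((a.1 : ℤ) - b.1, (a.2 : ℤ) - b.2) ∈ Gd := by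
  classical
  let E1 : Finset (ℕ × ℕ) := G.filter fun a => ¬ (1 ≤ a.1 ∧ (a.1 - 1, a.2) ∈ G)
  let E2 : Finset (ℕ × ℕ) := G.filter fun a => ¬ (1 ≤ a.2 ∧ (a.1, a.2 - 1) ∈ G)
  let B : Finset (ℕ × ℕ) := range (D + 1) ×ˢ range (D + 1)
  have hE1 : E1.card ≤ (G.filter fun n => (n.1 + 1, n.2) ∉ G).card :=
    card_enter G (fun n => (n.1 + 1, n.2)) (fun m n h => by
      simp only [Prod.mk.injEq] at h
      exact Prod.ext (by omega) h.2) (fun a => 1 ≤ a.1 ∧ (a.1 - 1, a.2) ∈ G) (fun n hn _ => by
      simp only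
      exact ⟨by omega, by simpa using hn⟩)
  have hE2 : E2.card ≤ (G.filter fun n => (n.1, n.2 + 1) ∉ G).card :=
    card_enter G (fun n => (n.1, n.2 + 1)) (fun m n h => by
      simp only [Prod.mk.injEq] at h
      exact Prod.ext h.1 (by omega)) (fun a => 1 ≤ a.2 ∧ (a.1, a.2 - 1) ∈ G) (fun n hn _ => by
      simp only
      exact ⟨by omega, by simpa using hn⟩)
  let G0 : Finset (ℤ × ℤ) := G.image fun a => ((a.1 : ℤ), (a.2 : ℤ))
  let G1 : Finset (ℤ × ℤ) := (E1 ×ˢ B).image fun q => ((q.1.1 : ℤ) - 1 - q.2.1, (q.1.2 : ℤ) - q.2.2)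
  let G2 : Finset (ℤ × ℤ) := (E2 ×ˢ B).image fun q => ((q.1.1 : ℤ) - q.2.1, (q.1.2 : ℤ) - 1 - q.2.2)
  refine ⟨G0 ∪ (G1 ∪ G2), ?_, ?_⟩
  · have h0 : G0.card ≤ G.card := card_image_le
    have h1 : G1.card ≤ E1.card * ((D + 1) * (D + 1)) := by
      refine card_image_le.trans ?_
      rw [card_product, card_product, card_range]
    have h2 : G2.card ≤ E2.card * ((D + 1) * (D + 1)) := by
      refine card_image_le.trans ?_
      rw [card_product, card_product, card_range]
    have h3 : (G0 ∪ (G1 ∪ G2)).card ≤ G.card + (D + 1) ^ 2 * ((G.filter fun n => (n.1 + 1, n.2) ∉ G).card +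
        (G.filter fun n => (n.1, n.2 + 1) ∉ G).card) := by
      have h4 := card_union_le G0 (G1 ∪ G2)
      have h5 := card_union_le G1 G2
      have h6 := Nat.mul_le_mul_right ((D + 1) * (D + 1)) hE1
      have h7 := Nat.mul_le_mul_right ((D + 1) * (D + 1)) hE2
      calc (G0 ∪ (G1 ∪ G2)).card ≤ G.card + ((G.filter fun n => (n.1 + 1, n.2) ∉ G).card * ((D + 1) * (D + 1)) +
            (G.filter fun n => (n.1, n.2 + 1) ∉ G).card * ((D + 1) * (D + 1))) := by omega
        _ = _ := by ring
    exact_mod_cast h3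
  · have key : ∀ k : ℕ, ∀ a ∈ G, ∀ b : ℕ × ℕ, b.1 ≤ D → b.2 ≤ D → b.1 + b.2 = k →
        ((a.1 : ℤ) - b.1, (a.2 : ℤ) - b.2) ∈ G0 ∪ (G1 ∪ G2) := by
      intro k
      induction k with
      | zero =>
        intro a ha b _ _ hk
        have hb1 : b.1 = 0 := by omega
        have hb2 : b.2 = 0 := by omega
        apply mem_union_left
        rw [hb1, hb2]
        exact mem_image.2 ⟨a, ha, by simp⟩
      | succ k ih =>
        intro a ha b h1 h2 hk
        by_cases hb1 : 1 ≤ b.1
        · by_cases hc : 1 ≤ a.1 ∧ (a.1 - 1, a.2) ∈ G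
          · have := ih (a.1 - 1, a.2) hc.2 (b.1 - 1, b.2) (by simp only; omega) h2 (by simp only; omega)
            simp only at this
            have e : (((a.1 - 1 : ℕ) : ℤ) - ((b.1 - 1 : ℕ) : ℤ), (a.2 : ℤ) - b.2) = ((a.1 : ℤ) - b.1, (a.2 : ℤ) - b.2) := by
              rw [Nat.cast_sub hc.1, Nat.cast_sub hb1]
              congr 1
              push_cast
              ring
            rwa [e] at this
          · apply mem_union_right
            apply mem_union_left
            refine mem_image.2 ⟨(a, (b.1 - 1, b.2)), mem_product.2 ⟨mem_filter.2 ⟨ha, hc⟩,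
              mem_product.2 ⟨mem_range.2 (by simp only; omega), mem_range.2 (by simp only; omega)⟩⟩, ?_⟩
            simp only
            rw [Nat.cast_sub hb1]
            congr 1
            push_cast
            ring
        · have hb2 : 1 ≤ b.2 := by omega
          by_cases hc : 1 ≤ a.2 ∧ (a.1, a.2 - 1) ∈ G
          · have := ih (a.1, a.2 - 1) hc.2 (b.1, b.2 - 1) h1 (by simp only; omega) (by simp only; omega)
            simp only at this
            have e : ((a.1 : ℤ) - b.1, ((a.2 - 1 : ℕ) : ℤ) - ((b.2 - 1 : ℕ) : ℤ)) = ((a.1 : ℤ) - b.1, (a.2 : ℤ) - b.2) := by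
              rw [Nat.cast_sub hc.1, Nat.cast_sub hb2]
              congr 1
              push_cast
              ring
            rwa [e] at this
          · apply mem_union_right
            apply mem_union_right
            refine mem_image.2 ⟨(a, (b.1, b.2 - 1)), mem_product.2 ⟨mem_filter.2 ⟨ha, hc⟩,
              mem_product.2 ⟨mem_range.2 (by simp only; omega), mem_range.2 (by simp only; omega)⟩⟩, ?_⟩
            simp only
            rw [Nat.cast_sub hb2]
            congr 1
            push_cast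
            ring
    intro a ha b h1 h2
    exact key _ a ha b h1 h2 rfl

end Pool.Agent.Zk55.Tv5
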